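import Pool.Agent.Work.MP_85f2da_an.AllB

set_option autoImplicit false

/-!
# MP_85f2da_an: bounded minimal functions with self-intersections in every dimension `n ≥ 4`

For every `n ≥ 4` there are a Lagrangian `L(x,u,p)` (smooth, periodic, with the standard
convexity and growth conditions, even independent of `x`) and a minimal function `u` with
bounded gradient and values in `[0,1]` whose graph has self-intersections in the torus.
-/

open MeasureTheory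
open scoped ContDiff

namespace Pool.Agent.Results.MP_85f2da_an.BoundedMinimalCrossing

variable {n : ℕ}

/-- The gradient: the vector of the partial derivatives. -/
noncomputable def grad (u : (Fin n → ℝ) → ℝ) (x : Fin n → ℝ) : Fin n → ℝ :=
  fun i => fderiv ℝ u x (Pi.single i 1)

/-- The second derivative of `L`, as a function of `(x,v,p)`, at `q` in the directions `X`, `Y`. -/
noncomputable def secondDeriv (L : (Fin n → ℝ) → ℝ → (Fin n → ℝ) → ℝ)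
    (q X Y : (Fin n → ℝ) × ℝ × (Fin n → ℝ)) : ℝ :=
  fderiv ℝ (fun q' => fderiv ℝ (fun q'' : (Fin n → ℝ) × ℝ × (Fin n → ℝ) =>
    L q''.1 q''.2.1 q''.2.2) q' X) q Y

/-- The standing hypotheses on `L(x,v,p)`: it is smooth, periodic with respect to the integers in
`(x,v)`, and with one constant `c > 0`: `|ξ|²/c ≤ ξ·L_pp ξ ≤ c|ξ|²`,
`|L_px| + |L_pv| ≤ c(1+|p|)`, `|L_xx| + |L_xv| + |L_vv| ≤ c(1+|p|²)` (each term separately,
which is the same up to the constant). -/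
structure IsLagrangian (L : (Fin n → ℝ) → ℝ → (Fin n → ℝ) → ℝ) : Prop where
  smooth : ContDiff ℝ ((⊤ : ℕ∞) : WithTop ℕ∞)
    (fun q : (Fin n → ℝ) × ℝ × (Fin n → ℝ) => L q.1 q.2.1 q.2.2)
  periodic : ∀ (x : Fin n → ℝ) (v : ℝ) (p : Fin n → ℝ) (k : Fin n → ℤ) (l : ℤ),
    L (fun i => x i + k i) (v + l) p = L x v p
  bounds : ∃ c : ℝ, 0 < c ∧ ∀ (x : Fin n → ℝ) (v : ℝ) (p : Fin n → ℝ),
    (∀ ξ : Fin n → ℝ, c⁻¹ * ∑ i, ξ i ^ 2 ≤ secondDeriv L (x, v, p) (0, 0, ξ) (0, 0, ξ) ∧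
      secondDeriv L (x, v, p) (0, 0, ξ) (0, 0, ξ) ≤ c * ∑ i, ξ i ^ 2) ∧
    (∀ ξ y : Fin n → ℝ, |secondDeriv L (x, v, p) (0, 0, ξ) (y, 0, 0)|
      ≤ c * (1 + Real.sqrt (∑ i, p i ^ 2)) * Real.sqrt (∑ i, ξ i ^ 2)
        * Real.sqrt (∑ i, y i ^ 2)) ∧
    (∀ (ξ : Fin n → ℝ) (s : ℝ), |secondDeriv L (x, v, p) (0, 0, ξ) (0, s, 0)|
      ≤ c * (1 + Real.sqrt (∑ i, p i ^ 2)) * Real.sqrt (∑ i, ξ i ^ 2) * |s|) ∧
    (∀ y y' : Fin n → ℝ, |secondDeriv L (x, v, p) (y, 0, 0) (y', 0, 0)|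
      ≤ c * (1 + ∑ i, p i ^ 2) * Real.sqrt (∑ i, y i ^ 2) * Real.sqrt (∑ i, y' i ^ 2)) ∧
    (∀ (y : Fin n → ℝ) (s : ℝ), |secondDeriv L (x, v, p) (y, 0, 0) (0, s, 0)|
      ≤ c * (1 + ∑ i, p i ^ 2) * Real.sqrt (∑ i, y i ^ 2) * |s|) ∧
    (∀ s s' : ℝ, |secondDeriv L (x, v, p) (0, s, 0) (0, s', 0)|
      ≤ c * (1 + ∑ i, p i ^ 2) * |s| * |s'|)

/-- `u` is minimal for `L`: it is locally Lipschitz, and for every Lipschitz `φ` with compact
support `K` the integral of `L(x,u+φ,Du+Dφ)` over `K` is at least that of `L(x,u,Du)`. -/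
def IsMinimal (L : (Fin n → ℝ) → ℝ → (Fin n → ℝ) → ℝ) (u : (Fin n → ℝ) → ℝ) : Prop :=
  LocallyLipschitz u ∧ ∀ φ : (Fin n → ℝ) → ℝ, (∃ K, LipschitzWith K φ) → HasCompactSupport φ →
    ∫ x in tsupport φ, L x (u x) (grad u x)
      ≤ ∫ x in tsupport φ, L x (u x + φ x) (grad (fun y => u y + φ y) x)

/-- In every dimension `n ≥ 4` there are a Lagrangian `L` (independent of `x`) and a minimal
function `u` with bounded gradient, with values in `[0,1]`, such that for some integer vector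
`(k,l)` the function `u(·+k)+l-u` vanishes somewhere but not everywhere. -/
theorem result : ∀ n : ℕ, 4 ≤ n →
    ∃ (L : (Fin n → ℝ) → ℝ → (Fin n → ℝ) → ℝ) (u : (Fin n → ℝ) → ℝ),
      IsLagrangian L ∧ (∀ x y v p, L x v p = L y v p) ∧ IsMinimal L u ∧
      (∃ K, LipschitzWith K u) ∧ (∀ x, 0 ≤ u x ∧ u x ≤ 1) ∧
      ∃ (k : Fin n → ℤ) (l : ℤ), (∃ x, u (fun i => x i + k i) + l - u x = 0) ∧
        ∃ x, u (fun i => x i + k i) + l - u x ≠ 0 := by
  intro n hn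
  obtain ⟨L, u, hL, hx, hm, h01, hK, hkl⟩ := Pool.Agent.Work.MP_85f2da_an.nFinalBAll n hn
  exact ⟨L, u, ⟨hL.smooth, hL.per, hL.bounds⟩, hx, hm, hK, h01, hkl⟩

end Pool.Agent.Results.MP_85f2da_an.BoundedMinimalCrossing
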